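import Pool.Agent.R784PNRES
import Pool.Agent.R372.PN.DER
import Pool.Agent.R372.PN.PF
import Pool.Agent.R372.PN.RP
import Pool.Agent.R928.PNCLO
import Pool.Agent.R787.PNOP
import Pool.Agent.R813.PNFIN
import Pool.Agent.R684.PN.Lim
import Pool.Agent.R415.PNCMP
import Pool.Agent.R906.PN.CYC
import Pool.Agent.R684.PN.Main

set_option autoImplicit false

/-!
# Finitely generated normal (and commensurated) subgroups of parafree groups

Let `P` be a parafree group, not assumed finitely generated. Then no non-trivial normal subgroup
of infinite index in `P` is finitely generated. The same is true for every non-trivial subgroup `N`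
of infinite index which is only commensurated: `N ∩ g N g⁻¹` has finite index in `N` for all `g`.
-/

namespace Pool.Agent.Results.MP_f3dc04_al.CommensuratedSubgroups

/-- the lower central series, `gam G n = γ_{n+1}(G)`: `γ₁(G) = G`, `γ_{n+2}(G) = [γ_{n+1}(G), G]` -/
abbrev gam (G : Type) [Group G] (n : ℕ) : Subgroup G := (⊤ : Subgroup G).lowerCentralSeries n

/-- `P` is parafree: it is residually nilpotent and has the lower central quotients of a free group
(on an arbitrary set `X`; the isomorphisms for different `n` are not assumed to be related) -/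
def IsParafree (P : Type) [Group P] : Prop :=
  (⨅ n : ℕ, gam P n) = ⊥ ∧
  ∃ X : Type, ∀ n : ℕ, Nonempty (P ⧸ gam P n ≃* FreeGroup X ⧸ gam (FreeGroup X) n)

/-- `N` is commensurated in `P`: for every `g` the subgroup `N ∩ g N g⁻¹` has finite index in `N` -/
def IsCommensurated {P : Type} [Group P] (N : Subgroup P) : Prop :=
  ∀ g : P, (N.map (MulAut.conj g).toMonoidHom).relIndex N ≠ 0

/-- Main theorem. Let `P` be a parafree group and `N ≠ 1` a subgroup of infinite index which is
normal or, more generally, commensurated. Then `N` is not finitely generated. -/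
theorem result (P : Type) [Group P] (hP : IsParafree P) (N : Subgroup P)
    (hN : N.Normal ∨ IsCommensurated N) (h1 : N ≠ ⊥) (hi : N.index = 0) : ¬ N.FG := by
  obtain ⟨hr, X, hX⟩ := hP
  have hr' : Pool.Agent.R684.PN.ResNil P := by
    intro x hx
    have : x ∈ (⨅ n : ℕ, gam P n) := Subgroup.mem_iInf.2 hx
    rw [hr] at this
    exact Subgroup.mem_bot.1 this
  have hc : ∀ g : P, (N.map (MulAut.conj g).toMonoidHom).relIndex N ≠ 0 := by
    rcases hN with hN | hN
    · intro g
      have : N.map (MulAut.conj g).toMonoidHom = N := by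
        ext x
        constructor
        · rintro ⟨y, hy, rfl⟩
          exact hN.conj_mem y hy g
        · intro hx
          exact ⟨g⁻¹ * x * g, by simpa using hN.conj_mem x hx g⁻¹,
            by simp [MulAut.conj_apply, mul_assoc]⟩
      rw [this, Subgroup.relIndex_self]
      exact one_ne_zero
    · exact hN
  have hclo := Pool.Agent.R928.PNCLO.t_CLO
  have hop := Pool.Agent.R787.PNOP.t_OP
  exact Pool.Agent.R684.PN.t_MAIN (Pool.Agent.R372.PN.RP.t_RP Pool.Agent.R784.PNRES.t_RES)
    Pool.Agent.R372.PN.PF.t_PF Pool.Agent.R372.PN.DER.t_DER hclo hop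
    (Pool.Agent.R684.PN.t_FIN hclo hop) (Pool.Agent.R684.PN.t_LIM hclo)
    Pool.Agent.R415.PNCMP.t_CMP Pool.Agent.R906.PN.t_CYC hX hr' N hc h1 hi

end Pool.Agent.Results.MP_f3dc04_al.CommensuratedSubgroups
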